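import Mathlib
import Pool.Agent.H.MP_d7339e_co.T333

set_option autoImplicit false

namespace Pool.Agent.Results.MP_d7339e_co.Theta333

open SimpleGraph

/-- A path system: one path `P u v` for each pair of vertices (`P v u` is `P u v` read backwards). -/
structure PathSystem {V : Type} (G : SimpleGraph V) where
  P : ∀ u v : V, G.Walk u v
  isPath : ∀ u v, (P u v).IsPath
  symm : ∀ u v, P v u = (P u v).reverse

/-- Every subpath of a chosen path is the chosen path between its end vertices. -/
def PathSystem.Consistent {V : Type} {G : SimpleGraph V} (S : PathSystem G) : Prop :=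
  ∀ (u v x y : V) (q : G.Walk x y), q.IsSubwalk (S.P u v) → q = S.P x y

/-- Total weight of the edges of a walk. -/
def wt {V : Type} {G : SimpleGraph V} (w : Sym2 V → ℝ) {u v : V} (p : G.Walk u v) : ℝ :=
  (p.edges.map w).sum

/-- `w` induces the path system (ties allowed). -/
def Induces {V : Type} {G : SimpleGraph V} (w : Sym2 V → ℝ) (S : PathSystem G) : Prop :=
  ∀ (u v : V) (Q : G.Walk u v), Q.IsPath → wt w (S.P u v) ≤ wt w Q

def Metrizable {V : Type} (G : SimpleGraph V) : Prop :=
  ∀ S : PathSystem G, S.Consistent →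
    ∃ w : Sym2 V → ℝ, (∀ e ∈ G.edgeSet, 0 < w e) ∧ Induces w S

/-- `s = 0`, `t = 1` and the three paths `0-2-3-1`, `0-4-5-1`, `0-6-7-1`. -/
def theta333 : SimpleGraph (Fin 8) :=
  fromEdgeSet {s(0, 2), s(2, 3), s(3, 1), s(0, 4), s(4, 5), s(5, 1), s(0, 6), s(6, 7), s(7, 1)}

open Pool.Agent.H.MP_d7339e_co.T333

theorem adj_of {a b : Fin 8} (h : theta333.Adj a b) : adjB a b = true := by
  have : ∀ a b : Fin 8, s(a, b) ∈ ({s(0, 2), s(2, 3), s(3, 1), s(0, 4), s(4, 5), s(5, 1), s(0, 6),
      s(6, 7), s(7, 1)} : Finset (Sym2 (Fin 8))) → adjB a b = true := by decide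
  apply this
  have h1 := ((fromEdgeSet_adj _).1 h).1
  simpa using h1

theorem mem_ext {u v : Fin 8} (p : theta333.Walk u v) (hp : p.IsPath) :
    p.support ∈ ext p.length := by
  induction p with
  | nil => simp [ext]
  | @cons a b c h q ih =>
    rw [Walk.cons_isPath_iff] at hp
    rw [Walk.length_cons, ext, List.mem_flatMap]
    refine ⟨q.support, ih hp.1, List.mem_map.2 ⟨a, ?_, rfl⟩⟩
    rw [List.mem_filter]
    refine ⟨List.mem_finRange a, ?_⟩
    have : q.support.headD 0 = b := by cases q <;> rfl
    rw [this, adj_of h]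
    simpa using hp.2

theorem mem_AP {u v : Fin 8} (p : theta333.Walk u v) (hp : p.IsPath) : p.support ∈ AP :=
  List.mem_flatMap.2 ⟨p.length, List.mem_range.2 (by simpa using hp.length_lt), mem_ext p hp⟩

theorem hd {u v : Fin 8} (p : theta333.Walk u v) : p.support.head? = some u := by
  cases p <;> rfl

theorem lt {u v : Fin 8} (p : theta333.Walk u v) : p.support.getLast? = some v := by
  rw [List.getLast?_eq_some_getLast p.support_ne_nil, Walk.getLast_support]

noncomputable def wN (N : ℕ) : Sym2 (Fin 8) → ℝ :=
  Sym2.lift ⟨fun a b => (wf N a b : ℝ), fun a b => by simp only [wf, add_comm]⟩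

theorem wt_eq (N : ℕ) {u v : Fin 8} (p : theta333.Walk u v) :
    wt (wN N) p = (W N p.support : ℝ) := by
  induction p with
  | nil => simp [wt, W]
  | @cons a b c h q ih =>
    have h1 : q.support = b :: q.support.tail := q.cons_tail_support.symm
    have h2 : W N (Walk.cons h q).support = wf N a b + W N q.support := by
      rw [Walk.support_cons, h1, W]
    rw [h2, Nat.cast_add, ← ih]
    simp [wt, wN]

theorem result : Metrizable theta333 := by
  intro S hS
  obtain ⟨N, hN⟩ := core (fun u v => (S.P u v).support) (fun u v => mem_AP _ (S.isPath u v))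
    (fun u v => hd _) (fun u v => lt _) (fun u v => by rw [S.symm u v, Walk.support_reverse]) (by
      intro u v x y q hq h1 h2
      have hne : q ≠ [] := by rintro rfl; simp at h1
      have hch : q.IsChain theta333.Adj := by
        have h0 := (S.P u v).isChain_adj_support
        obtain ⟨l1, l2, h3⟩ := hq
        rw [← h3] at h0
        exact h0.left_of_append.right_of_append
      rw [List.head?_eq_some_head hne] at h1
      rw [List.getLast?_eq_some_getLast hne] at h2
      obtain rfl := Option.some.inj h1
      obtain rfl := Option.some.inj h2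
      have h3 := hS u v _ _ (Walk.ofSupport q hne hch)
        (Walk.isSubwalk_iff_support_isInfix.2 (by rw [Walk.support_ofSupport]; exact hq))
      rw [← h3, Walk.support_ofSupport])
  refine ⟨wN N, ?_, ?_⟩
  · intro e _
    induction e using Sym2.ind with
    | h a b =>
      simp only [wN, Sym2.lift_mk, wf]
      positivity
  · have key : ∀ u v, u < v → ∀ Q : theta333.Walk u v, Q.IsPath →
        wt (wN N) (S.P u v) ≤ wt (wN N) Q := by
      intro u v huv Q hQ
      rw [wt_eq, wt_eq]
      exact_mod_cast hN u v huv _ (mem_AP Q hQ) (hd Q) (lt Q)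
    have rev : ∀ u v (Q : theta333.Walk u v), wt (wN N) Q.reverse = wt (wN N) Q := by
      intro u v Q
      simp [wt, Walk.edges_reverse, List.map_reverse, List.sum_reverse]
    intro u v Q hQ
    rcases lt_trichotomy u v with h | rfl | h
    · exact key u v h Q hQ
    · rw [Walk.isPath_iff_eq_nil.1 hQ, Walk.isPath_iff_eq_nil.1 (S.isPath u u)]
    · have := key v u h Q.reverse hQ.reverse
      rwa [S.symm u v, rev, rev] at this

end Pool.Agent.Results.MP_d7339e_co.Theta333
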